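import Pool.Agent.W734.TWB.Stms

set_option autoImplicit false

noncomputable section

namespace Pool.Agent.W917.TWB

open MeasureTheory Set Filter Metric
open Pool.Agent.W734.TWB

/-! ### measurability -/

lemma meas_coord {n : ℕ} {f : Cfg n → E3} (hf : Measurable f) (lo hi : ℝ) :
    Measurable (fun x : Cfg n => ∀ a, (f x) a ∈ Set.Ico lo hi) := by
  refine Measurable.forall (fun a => ?_)
  have h1 : Measurable (fun x : Cfg n => (f x) a) :=
    ((EuclideanSpace.proj (𝕜 := ℝ) a).continuous.measurable).comp hf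
  exact measurableSet_setOfPred.1 (h1 measurableSet_Ico)

lemma meas_ev {n : ℕ} (i : Fin n) : Measurable (fun x : Cfg n => x i) := measurable_pi_apply i

lemma meas_lt {n : ℕ} {f : Cfg n → ℝ} (hf : Measurable f) (c : ℝ) :
    Measurable (fun x : Cfg n => f x < c) :=
  measurableSet_setOfPred.1 (measurableSet_lt hf measurable_const)

lemma meas_le {n : ℕ} {f : Cfg n → ℝ} (hf : Measurable f) (c : ℝ) :
    Measurable (fun x : Cfg n => c ≤ f x) :=
  measurableSet_setOfPred.1 (measurableSet_le measurable_const hf)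

lemma meas_c2 {n : ℕ} (i j : Fin n) :
    Measurable (fun x : Cfg n => (1 / 2 : ℝ) • (x i + x j)) := by
  have h : Continuous (fun x : Cfg n => (1 / 2 : ℝ) • (x i + x j)) := by fun_prop
  exact h.measurable

lemma meas_c3 {n : ℕ} (i j k : Fin n) :
    Measurable (fun x : Cfg n => (1 / 3 : ℝ) • (x i + x j + x k)) := by
  have h : Continuous (fun x : Cfg n => (1 / 3 : ℝ) • (x i + x j + x k)) := by fun_prop
  exact h.measurable

lemma meas_pairReg {n : ℕ} (τ ρ : ℝ) (i j : Fin n) : MeasurableSet (pairReg (n := n) τ ρ i j) := by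
  unfold pairReg
  refine measurableSet_setOfPred.2 ?_
  refine (meas_coord (meas_c2 i j) _ _).and ((meas_lt ((meas_ev i).sub (meas_ev j)).norm _).and ?_)
  refine Measurable.forall (fun l => ?_)
  refine Measurable.imp measurable_const (Measurable.imp measurable_const ?_)
  exact (meas_coord (meas_ev l) _ _).and (meas_le ((meas_ev l).sub (meas_c2 i j)).norm _)

lemma meas_tripReg {n : ℕ} (τ ρ : ℝ) (i j k : Fin n) :
    MeasurableSet (tripReg (n := n) τ ρ i j k) := by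
  unfold tripReg
  refine measurableSet_setOfPred.2 ?_
  have h1 : Measurable (fun x : Cfg n => (x i - x j, x i - x k)) :=
    ((meas_ev i).sub (meas_ev j)).prodMk ((meas_ev i).sub (meas_ev k))
  refine (meas_coord (meas_c3 i j k) _ _).and (Measurable.and ?_ ?_)
  · exact measurableSet_setOfPred.1 (h1 (Metric.isOpen_ball.measurableSet))
  refine Measurable.forall (fun l => ?_)
  refine Measurable.imp measurable_const (Measurable.imp measurable_const
    (Measurable.imp measurable_const ?_))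
  exact (meas_coord (meas_ev l) _ _).and (meas_le ((meas_ev l).sub (meas_c3 i j k)).norm _)

lemma meas_nearD {n : ℕ} (τ : ℝ) (i j : Fin n) : MeasurableSet (nearD (n := n) τ i j) := by
  unfold nearD
  refine measurableSet_setOfPred.2 ?_
  refine Measurable.and ?_ ((meas_coord (meas_c2 i j) _ _).and
    (meas_lt ((meas_ev i).sub (meas_ev j)).norm _))
  unfold box
  refine Measurable.forall (fun l => Measurable.forall (fun a => ?_))
  have h1 : Measurable (fun x : Cfg n => (x l) a) :=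
    ((EuclideanSpace.proj (𝕜 := ℝ) a).continuous.measurable).comp (meas_ev l)
  exact measurableSet_setOfPred.1 (h1 measurableSet_Ico)

/-! ### geometry -/

lemma coord_le (v : E3) (a : Fin 3) : |v a| ≤ ‖v‖ := by
  have := EuclideanSpace.norm_eq v
  rw [this]
  refine Real.abs_le_sqrt ?_
  have h := Finset.single_le_sum (f := fun i => ‖v i‖ ^ 2) (fun i _ => by positivity)
    (Finset.mem_univ a)
  simpa using h

/-- moving by less than `r` -/
lemma coord_move {z w : E3} {r lo hi lo' hi' : ℝ} (hz : ∀ a, z a ∈ Set.Ico lo hi)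
    (h : ‖w - z‖ ≤ r) (h1 : lo' + r ≤ lo) (h2 : hi + r ≤ hi') : ∀ a, w a ∈ Set.Ico lo' hi' := by
  intro a
  have h3 := (coord_le (w - z) a).trans h
  have h4 : (w - z) a = w a - z a := rfl
  rw [h4, abs_le] at h3
  have h5 := hz a
  constructor
  · linarith [h5.1, h3.1]
  · linarith [h5.2, h3.2]

section Pair
variable {n : ℕ} {τ ρ : ℝ} {i j : Fin n} {x : Cfg n}

lemma pair_i (h : x ∈ pairReg τ ρ i j) (hρ : ρ ≤ τ / 4) :
    ‖x i - (1 / 2 : ℝ) • (x i + x j)‖ ≤ τ / 4 := by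
  have e : x i - (1 / 2 : ℝ) • (x i + x j) = (1 / 2 : ℝ) • (x i - x j) := by module
  rw [e, norm_smul]
  have := h.2.1
  have h0 := norm_nonneg (x i - x j)
  norm_num
  linarith

lemma pair_j (h : x ∈ pairReg τ ρ i j) (hρ : ρ ≤ τ / 4) :
    ‖x j - (1 / 2 : ℝ) • (x i + x j)‖ ≤ τ / 4 := by
  have e : x j - (1 / 2 : ℝ) • (x i + x j) = (-(1 / 2) : ℝ) • (x i - x j) := by module
  rw [e, norm_smul]
  have := h.2.1
  have h0 := norm_nonneg (x i - x j)
  norm_num
  linarith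

end Pair

section Trip
variable {n : ℕ} {τ ρ : ℝ} {i j k : Fin n} {x : Cfg n}

lemma trip_y (h : x ∈ tripReg τ ρ i j k) : ‖x i - x j‖ < ρ ∧ ‖x i - x k‖ < ρ := by
  have h1 := h.2.1
  rw [mem_ball_zero_iff, Prod.norm_def] at h1
  exact ⟨lt_of_le_of_lt (le_max_left _ _) h1, lt_of_le_of_lt (le_max_right _ _) h1⟩

lemma comb_le {u v : E3} {r : ℝ} (a b : ℝ) (hu : ‖u‖ ≤ r) (hv : ‖v‖ ≤ r) :
    ‖a • u + b • v‖ ≤ (|a| + |b|) * r := by
  calc ‖a • u + b • v‖ ≤ ‖a • u‖ + ‖b • v‖ := norm_add_le _ _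
    _ = |a| * ‖u‖ + |b| * ‖v‖ := by rw [norm_smul, norm_smul]; rfl
    _ ≤ |a| * r + |b| * r := by gcongr
    _ = (|a| + |b|) * r := by ring

lemma trip_i (h : x ∈ tripReg τ ρ i j k) (hρ : ρ ≤ τ / 4) :
    ‖x i - (1 / 3 : ℝ) • (x i + x j + x k)‖ ≤ τ / 4 := by
  have e : x i - (1 / 3 : ℝ) • (x i + x j + x k)
      = (1 / 3 : ℝ) • (x i - x j) + (1 / 3 : ℝ) • (x i - x k) := by module
  rw [e]
  obtain ⟨h1, h2⟩ := trip_y h
  refine (comb_le _ _ h1.le h2.le).trans ?_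
  have h0 := norm_nonneg (x i - x j)
  norm_num
  linarith

lemma trip_j (h : x ∈ tripReg τ ρ i j k) (hρ : ρ ≤ τ / 4) :
    ‖x j - (1 / 3 : ℝ) • (x i + x j + x k)‖ ≤ τ / 4 := by
  have e : x j - (1 / 3 : ℝ) • (x i + x j + x k)
      = (-(2 / 3) : ℝ) • (x i - x j) + (1 / 3 : ℝ) • (x i - x k) := by module
  rw [e]
  obtain ⟨h1, h2⟩ := trip_y h
  refine (comb_le _ _ h1.le h2.le).trans ?_
  norm_num
  have : |(1 / 3 : ℝ)| = 1 / 3 := abs_of_pos (by norm_num)
  linarith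

lemma trip_k (h : x ∈ tripReg τ ρ i j k) (hρ : ρ ≤ τ / 4) :
    ‖x k - (1 / 3 : ℝ) • (x i + x j + x k)‖ ≤ τ / 4 := by
  have e : x k - (1 / 3 : ℝ) • (x i + x j + x k)
      = (1 / 3 : ℝ) • (x i - x j) + (-(2 / 3) : ℝ) • (x i - x k) := by module
  rw [e]
  obtain ⟨h1, h2⟩ := trip_y h
  refine (comb_le _ _ h1.le h2.le).trans ?_
  norm_num
  linarith

lemma trip_mid (h : x ∈ tripReg τ ρ i j k) (hρ : ρ ≤ τ / 4) :
    ‖(1 / 2 : ℝ) • (x i + x j) - (1 / 3 : ℝ) • (x i + x j + x k)‖ ≤ τ / 8 := by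
  have e : (1 / 2 : ℝ) • (x i + x j) - (1 / 3 : ℝ) • (x i + x j + x k)
      = (-(1 / 6) : ℝ) • (x i - x j) + (1 / 3 : ℝ) • (x i - x k) := by module
  rw [e]
  obtain ⟨h1, h2⟩ := trip_y h
  refine (comb_le _ _ h1.le h2.le).trans ?_
  norm_num
  linarith

end Trip

/-! ### inclusions -/

lemma pair_sub {n : ℕ} {τ ρ : ℝ} (hτ : 0 < τ) (hρ : ρ ≤ τ / 4) {i j : Fin n} (hij : i ≠ j) :
    pairReg (n := n) τ ρ i j ⊆ nearD τ i j := by
  intro x hx
  have hi := coord_move (lo' := 0) (hi' := 1) hx.1 (pair_i hx hρ) (by linarith) (by linarith)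
  have hj := coord_move (lo' := 0) (hi' := 1) hx.1 (pair_j hx hρ) (by linarith) (by linarith)
  refine ⟨?_, fun a => ?_, lt_of_lt_of_le hx.2.1 hρ⟩
  · intro l a
    have h0 : ((0 : E3) a : ℝ) = 0 := rfl
    rw [h0, zero_add]
    by_cases hli : l = i
    · subst hli; exact hi a
    by_cases hlj : l = j
    · subst hlj; exact hj a
    exact (hx.2.2 l hli hlj).1 a
  · have := hx.1 a
    exact ⟨by linarith [this.1], by linarith [this.2]⟩

lemma trip_sub {n : ℕ} {τ ρ : ℝ} (hτ : 0 < τ) (hρ : ρ ≤ τ / 4) {i j k : Fin n} :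
    tripReg (n := n) τ ρ i j k ⊆ nearD τ i j := by
  intro x hx
  have hi := coord_move (lo' := 0) (hi' := 1) hx.1 (trip_i hx hρ) (by linarith) (by linarith)
  have hj := coord_move (lo' := 0) (hi' := 1) hx.1 (trip_j hx hρ) (by linarith) (by linarith)
  have hk := coord_move (lo' := 0) (hi' := 1) hx.1 (trip_k hx hρ) (by linarith) (by linarith)
  refine ⟨?_, ?_, lt_of_lt_of_le (trip_y hx).1 hρ⟩
  · intro l a
    have h0 : ((0 : E3) a : ℝ) = 0 := rfl
    rw [h0, zero_add]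
    by_cases hli : l = i
    · subst hli; exact hi a
    by_cases hlj : l = j
    · subst hlj; exact hj a
    by_cases hlk : l = k
    · subst hlk; exact hk a
    exact (hx.2.2 l hli hlj hlk).1 a
  · exact coord_move hx.1 (trip_mid hx hρ) (by linarith) (by linarith)

/-! ### active sets -/

/-- `S` is an active set at `x` with the centre `z` -/
structure Act {n : ℕ} (τ : ℝ) (x : Cfg n) (S : Finset (Fin n)) (z : E3) : Prop where
  near : ∀ l ∈ S, ‖x l - z‖ ≤ τ / 4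
  far : ∀ l, l ∉ S → 2 * τ ≤ ‖x l - z‖

lemma Act.sub {n : ℕ} {τ : ℝ} (hτ : 0 < τ) {x : Cfg n} {S S' : Finset (Fin n)} {z z' : E3}
    (h : Act τ x S z) (h' : Act τ x S' z') {m : Fin n} (hm : m ∈ S) (hm' : m ∈ S') : S' ⊆ S := by
  intro l hl
  by_contra hc
  have h1 := h.far l hc
  have h2 := h'.near l hl
  have h3 := h'.near m hm'
  have h4 := h.near m hm
  have e : x l - z = (x l - z') - (x m - z') + (x m - z) := by abel
  have h5 : ‖x l - z‖ ≤ ‖x l - z'‖ + ‖x m - z'‖ + ‖x m - z‖ := by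
    rw [e]
    exact (norm_add_le _ _).trans (by gcongr; exact norm_sub_le _ _)
  linarith

lemma Act.eq {n : ℕ} {τ : ℝ} (hτ : 0 < τ) {x : Cfg n} {S S' : Finset (Fin n)} {z z' : E3}
    (h : Act τ x S z) (h' : Act τ x S' z') {m : Fin n} (hm : m ∈ S) (hm' : m ∈ S') : S = S' :=
  Finset.Subset.antisymm (h'.sub hτ h hm' hm) (h.sub hτ h' hm hm')

lemma pair_act {n : ℕ} {τ ρ : ℝ} {i j : Fin n} {x : Cfg n} (hρ : ρ ≤ τ / 4)
    (h : x ∈ pairReg τ ρ i j) : Act τ x {i, j} ((1 / 2 : ℝ) • (x i + x j)) := by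
  constructor
  · intro l hl
    rw [Finset.mem_insert, Finset.mem_singleton] at hl
    rcases hl with rfl | rfl
    · exact pair_i h hρ
    · exact pair_j h hρ
  · intro l hl
    rw [Finset.mem_insert, Finset.mem_singleton, not_or] at hl
    exact (h.2.2 l hl.1 hl.2).2

lemma trip_act {n : ℕ} {τ ρ : ℝ} {i j k : Fin n} {x : Cfg n} (hρ : ρ ≤ τ / 4)
    (h : x ∈ tripReg τ ρ i j k) : Act τ x {i, j, k} ((1 / 3 : ℝ) • (x i + x j + x k)) := by
  constructor
  · intro l hl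
    rw [Finset.mem_insert, Finset.mem_insert, Finset.mem_singleton] at hl
    rcases hl with rfl | rfl | rfl
    · exact trip_i h hρ
    · exact trip_j h hρ
    · exact trip_k h hρ
  · intro l hl
    rw [Finset.mem_insert, Finset.mem_insert, Finset.mem_singleton, not_or, not_or] at hl
    exact (h.2.2 l hl.1 hl.2.1 hl.2.2).2

/-- the set of indices of a pair or a triple -/
def st {n : ℕ} : (Fin n × Fin n) ⊕ (Fin n × Fin n × Fin n) → Finset (Fin n)
  | Sum.inl p => {p.1, p.2}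
  | Sum.inr t => {t.1, t.2.1, t.2.2}

/-- active -/
def Ac {n : ℕ} (τ ρ ρ' : ℝ) (x : Cfg n) : (Fin n × Fin n) ⊕ (Fin n × Fin n × Fin n) → Prop
  | Sum.inl p => p.1 < p.2 ∧ x ∈ pairReg τ ρ p.1 p.2
  | Sum.inr t => (t.1 < t.2.1 ∧ t.2.1 < t.2.2) ∧ x ∈ tripReg τ ρ' t.1 t.2.1 t.2.2

lemma Ac.act {n : ℕ} {τ ρ ρ' : ℝ} {x : Cfg n} (hρ : ρ ≤ τ / 4) (hρ' : ρ' ≤ τ / 4)
    {a : (Fin n × Fin n) ⊕ (Fin n × Fin n × Fin n)} (h : Ac τ ρ ρ' x a) :
    ∃ z, Act τ x (st a) z := by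
  rcases a with p | t
  · exact ⟨_, pair_act hρ h.2⟩
  · exact ⟨_, trip_act hρ' h.2⟩

lemma pair_eq {n : ℕ} {a b c d : Fin n} (h1 : a < b) (h2 : c < d)
    (h : ({a, b} : Finset (Fin n)) = {c, d}) : a = c ∧ b = d := by
  have ha : a ∈ ({c, d} : Finset (Fin n)) := by rw [← h]; simp
  have hb : b ∈ ({c, d} : Finset (Fin n)) := by rw [← h]; simp
  have hc : c ∈ ({a, b} : Finset (Fin n)) := by rw [h]; simp
  rw [Finset.mem_insert, Finset.mem_singleton] at ha hb hc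
  rw [Fin.ext_iff, Fin.ext_iff] at *
  rw [Fin.lt_def] at h1 h2
  omega

lemma trip_eq {n : ℕ} {a b c d e f : Fin n} (h1 : a < b) (h2 : b < c) (h3 : d < e) (h4 : e < f)
    (h : ({a, b, c} : Finset (Fin n)) = {d, e, f}) : a = d ∧ b = e ∧ c = f := by
  have ha : a ∈ ({d, e, f} : Finset (Fin n)) := by rw [← h]; simp
  have hb : b ∈ ({d, e, f} : Finset (Fin n)) := by rw [← h]; simp
  have hc : c ∈ ({d, e, f} : Finset (Fin n)) := by rw [← h]; simp
  have hd : d ∈ ({a, b, c} : Finset (Fin n)) := by rw [h]; simp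
  have he : e ∈ ({a, b, c} : Finset (Fin n)) := by rw [h]; simp
  have hf : f ∈ ({a, b, c} : Finset (Fin n)) := by rw [h]; simp
  rw [Finset.mem_insert, Finset.mem_insert, Finset.mem_singleton] at ha hb hc hd he hf
  rw [Fin.ext_iff, Fin.ext_iff, Fin.ext_iff] at *
  rw [Fin.lt_def] at h1 h2 h3 h4
  omega

lemma st_inj {n : ℕ} {τ ρ ρ' : ℝ} {x : Cfg n}
    {a b : (Fin n × Fin n) ⊕ (Fin n × Fin n × Fin n)} (ha : Ac τ ρ ρ' x a)
    (hb : Ac τ ρ ρ' x b) (h : st a = st b) : a = b := by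
  have c2 : ∀ p q : Fin n, p < q → ({p, q} : Finset (Fin n)).card = 2 := fun p q h =>
    Finset.card_pair h.ne
  have c3 : ∀ p q r : Fin n, p < q → q < r → ({p, q, r} : Finset (Fin n)).card = 3 :=
    fun p q r h h' => Finset.card_eq_three.2 ⟨p, q, r, h.ne, (h.trans h').ne, h'.ne, rfl⟩
  rcases a with ⟨p, q⟩ | ⟨p, q, r⟩ <;> rcases b with ⟨p', q'⟩ | ⟨p', q', r'⟩
  · obtain ⟨rfl, rfl⟩ := pair_eq ha.1 hb.1 h
    rfl
  · exfalso
    have e := congrArg Finset.card h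
    have e1 := c2 p q ha.1
    have e2 := c3 p' q' r' hb.1.1 hb.1.2
    simp only [st] at e
    omega
  · exfalso
    have e := congrArg Finset.card h
    have e1 := c2 p' q' hb.1
    have e2 := c3 p q r ha.1.1 ha.1.2
    simp only [st] at e
    omega
  · obtain ⟨rfl, rfl, rfl⟩ := trip_eq ha.1.1 ha.1.2 hb.1.1 hb.1.2 h
    rfl

lemma sum2 {n : ℕ} (f : Fin n → Fin n → ℝ) :
    ∑ i : Fin n, ∑ j ∈ Finset.Ioi i, f i j = ∑ p : Fin n × Fin n, if p.1 < p.2 then f p.1 p.2 else 0 := by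
  rw [Fintype.sum_prod_type]
  refine Finset.sum_congr rfl (fun i _ => ?_)
  rw [← Finset.sum_filter]
  refine Finset.sum_congr ?_ (fun _ _ => rfl)
  ext j; simp

lemma sum3 {n : ℕ} (f : Fin n → Fin n → Fin n → ℝ) :
    ∑ i : Fin n, ∑ j ∈ Finset.Ioi i, ∑ k ∈ Finset.Ioi j, f i j k =
      ∑ p : Fin n × Fin n × Fin n, if p.1 < p.2.1 ∧ p.2.1 < p.2.2 then f p.1 p.2.1 p.2.2 else 0 := by
  rw [Fintype.sum_prod_type]
  refine Finset.sum_congr rfl (fun i _ => ?_)
  rw [Fintype.sum_prod_type]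
  have h1 : Finset.Ioi i = Finset.univ.filter (fun j => i < j) := by ext j; simp
  rw [h1, Finset.sum_filter]
  refine Finset.sum_congr rfl (fun j _ => ?_)
  have h2 : Finset.Ioi j = Finset.univ.filter (fun k => j < k) := by ext k; simp
  rw [h2, Finset.sum_filter]
  by_cases h : i < j
  · simp [h]
  · simp [h]

lemma final {n : ℕ} {τ ρ ρ' : ℝ} (hτ : 0 < τ) (hρ : ρ ≤ τ / 4) (hρ' : ρ' ≤ τ / 4)
    (q : Fin n → ℝ) (hq : ∀ i, 0 ≤ q i) (x : Cfg n) :
    (∑ i : Fin n, ∑ j ∈ Finset.Ioi i, (pairReg τ ρ i j).indicator (fun _ => q i + q j) x)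
    + (∑ i : Fin n, ∑ j ∈ Finset.Ioi i, ∑ k ∈ Finset.Ioi j,
        (tripReg τ ρ' i j k).indicator (fun _ => q i + q j + q k) x) ≤ ∑ i : Fin n, q i := by
  classical
  rw [sum2, sum3]
  have e : ((∑ p : Fin n × Fin n, if p.1 < p.2 then
        (pairReg τ ρ p.1 p.2).indicator (fun _ => q p.1 + q p.2) x else 0)
      + ∑ p : Fin n × Fin n × Fin n, if p.1 < p.2.1 ∧ p.2.1 < p.2.2 then
        (tripReg τ ρ' p.1 p.2.1 p.2.2).indicator (fun _ => q p.1 + q p.2.1 + q p.2.2) x else 0)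
      = ∑ a ∈ Finset.univ.filter (Ac τ ρ ρ' x), ∑ m ∈ st a, q m := by
    rw [Finset.sum_filter, Fintype.sum_sum_type]
    congr 1
    · refine Finset.sum_congr rfl (fun p _ => ?_)
      by_cases h1 : p.1 < p.2
      · by_cases h2 : x ∈ pairReg τ ρ p.1 p.2
        · have h3 : Ac τ ρ ρ' x (Sum.inl p) := ⟨h1, h2⟩
          rw [if_pos h1, if_pos h3, Set.indicator_of_mem h2]
          simp only [st]
          rw [Finset.sum_pair h1.ne]
        · have h3 : ¬ Ac τ ρ ρ' x (Sum.inl p) := fun h => h2 h.2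
          rw [if_pos h1, if_neg h3, Set.indicator_of_notMem h2]
      · have h3 : ¬ Ac τ ρ ρ' x (Sum.inl p) := fun h => h1 h.1
        rw [if_neg h1, if_neg h3]
    · refine Finset.sum_congr rfl (fun p _ => ?_)
      by_cases h1 : p.1 < p.2.1 ∧ p.2.1 < p.2.2
      · by_cases h2 : x ∈ tripReg τ ρ' p.1 p.2.1 p.2.2
        · have h3 : Ac τ ρ ρ' x (Sum.inr p) := ⟨h1, h2⟩
          rw [if_pos h1, if_pos h3, Set.indicator_of_mem h2]
          simp only [st]
          rw [Finset.sum_insert, Finset.sum_pair h1.2.ne]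
          · ring
          · rw [Finset.mem_insert, Finset.mem_singleton, not_or]
            exact ⟨h1.1.ne, (h1.1.trans h1.2).ne⟩
        · have h3 : ¬ Ac τ ρ ρ' x (Sum.inr p) := fun h => h2 h.2
          rw [if_pos h1, if_neg h3, Set.indicator_of_notMem h2]
      · have h3 : ¬ Ac τ ρ ρ' x (Sum.inr p) := fun h => h1 h.1
        rw [if_neg h1, if_neg h3]
  rw [e, ← Finset.sum_biUnion]
  · exact Finset.sum_le_univ_sum_of_nonneg hq
  · intro a ha b hb hab
    rw [Finset.mem_coe, Finset.mem_filter] at ha hb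
    rw [Function.onFun, Finset.disjoint_left]
    intro m hm hm'
    obtain ⟨z, hz⟩ := ha.2.act hρ hρ'
    obtain ⟨z', hz'⟩ := hb.2.act hρ hρ'
    exact hab (st_inj ha.2 hb.2 (hz.eq hτ hz' hm hm'))

theorem regs : S_REGS := by
  intro n τ ρ ρ' hτ hρ hρ'
  exact ⟨fun i j => meas_pairReg τ ρ i j, fun i j k => meas_tripReg τ ρ' i j k,
    fun i j => meas_nearD τ i j, fun i j hij => pair_sub hτ hρ hij,
    fun i j k _ _ _ => trip_sub hτ hρ', fun q hq x => final hτ hρ hρ' q hq x⟩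

end Pool.Agent.W917.TWB
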